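import Mathlib
import Pool.Agent.R691.Heights
import Pool.Agent.H219R3.FT8

/-!
# MP_b84a00_al: a torsion-free group whose square is Krylov transitive need not be transitive

The group is the additive group of the ring of power series used for the frozen statement
`S03319` (a homogeneous, fully transitive group which is not transitive). All primes different
from `2` are invertible in it, so the heights are governed by the single prime `2`, and any element
of the square is determined, up to the divisibility that matters, by one of its two coordinates.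
-/

set_option autoImplicit false

namespace Pool.Agent.Results.MP_b84a00_al.SquareKrylovNotTransitive

open Pool.Agent.R691.Heights Pool.Agent.H219R3.FT

/-- There is a torsion-free abelian group `G` such that `G ⊕ G` is Krylov transitive (even fully
transitive) but `G` is not transitive. -/
theorem result : ∃ (G : Type) (_ : AddCommGroup G),
    (∀ (n : ℕ) (x : G), n ≠ 0 → n • x = 0 → x = 0) ∧
    IsKrylovTransitive (G × G) ∧ IsFullyTransitive (G × G) ∧ ¬ IsTransitive G := by
  have : Fact (Nat.Prime 2) := ⟨Nat.prime_two⟩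
  obtain ⟨A, hXA, hdA, hA⟩ := exists_A 2
  have hfull : IsFullyTransitive (RR A × RR A) := by
    rintro ⟨a, b⟩ ⟨c, d⟩ hxy
    rw [chi_le_iff] at hxy
    -- the main case
    have key : ∀ a b : RR A, (∀ k : ℕ, ((2 : ℕ) : S 2) ^ k ∣ (a : S 2) → ((2 : ℕ) : S 2) ^ k ∣ (b : S 2)) →
        ∀ c d : RR A, (∀ q : ℕ, q.Prime → ∀ k : ℕ,
          (∃ z : RR A, q ^ k • z = a) → (∃ z : RR A, q ^ k • z = b) →
          (∃ z : RR A, q ^ k • z = c) ∧ (∃ z : RR A, q ^ k • z = d)) →
        ∃ f g : RR A →+ RR A, f a = c ∧ g a = d := by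
      intro a b hab c d h
      by_cases ha : a = 0
      · subst ha
        have hb : ∀ k : ℕ, ((2 : ℕ) : S 2) ^ k ∣ (b : S 2) := fun k => hab k (by
          rw [ZeroMemClass.coe_zero]; exact dvd_zero _)
        have hc : c = 0 ∧ d = 0 := by
          have hcd : ∀ k : ℕ, ((2 : ℕ) : S 2) ^ k ∣ (c : S 2) ∧ ((2 : ℕ) : S 2) ^ k ∣ (d : S 2) := by
            intro k
            have h1 := h 2 Nat.prime_two k ⟨0, by simp⟩ ((div_iff A b 2 Nat.prime_two k).2 (Or.inr (hb k)))
            constructor
            · rcases (div_iff A c 2 Nat.prime_two k).1 h1.1 with h2 | h2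
              · exact absurd rfl h2
              · exact h2
            · rcases (div_iff A d 2 Nat.prime_two k).1 h1.2 with h2 | h2
              · exact absurd rfl h2
              · exact h2
          constructor
          · by_contra hc0
            obtain ⟨m, -, h2⟩ := exists_height (c : S 2) (fun h => hc0 (Subtype.ext h))
            exact h2 (hcd _).1
          · by_contra hc0
            obtain ⟨m, -, h2⟩ := exists_height (d : S 2) (fun h => hc0 (Subtype.ext h))
            exact h2 (hcd _).2
        exact ⟨0, 0, by simp [hc.1], by simp [hc.2]⟩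
      · have hb : ∀ q : ℕ, q.Prime → ∀ k : ℕ, (∃ z : RR A, q ^ k • z = a) →
            ∃ z : RR A, q ^ k • z = b := by
          intro q hq k hk
          rw [div_iff A _ q hq] at hk ⊢
          rcases hk with hk | hk
          · exact Or.inl hk
          · exact Or.inr (hab k hk)
        obtain ⟨f, hf⟩ := RR_fully A hdA a c ha fun q hq k hk => (h q hq k hk (hb q hq k hk)).1
        obtain ⟨g, hg⟩ := RR_fully A hdA a d ha fun q hq k hk => (h q hq k hk (hb q hq k hk)).2
        exact ⟨f, g, hf, hg⟩
    have hxy' : ∀ q : ℕ, q.Prime → ∀ k : ℕ,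
          (∃ z : RR A, q ^ k • z = a) → (∃ z : RR A, q ^ k • z = b) →
          (∃ z : RR A, q ^ k • z = c) ∧ (∃ z : RR A, q ^ k • z = d) := by
      rintro q hq k ⟨z, hz⟩ ⟨w, hw⟩
      obtain ⟨⟨u, v⟩, huv⟩ := hxy q hq k ⟨(z, w), by rw [Prod.smul_mk, hz, hw]⟩
      rw [Prod.smul_mk, Prod.mk.injEq] at huv
      exact ⟨⟨u, huv.1⟩, ⟨v, huv.2⟩⟩
    by_cases hab : ∀ k : ℕ, ((2 : ℕ) : S 2) ^ k ∣ (a : S 2) → ((2 : ℕ) : S 2) ^ k ∣ (b : S 2)
    · obtain ⟨f, g, hf, hg⟩ := key a b hab c d hxy'
      refine ⟨(f.comp (AddMonoidHom.fst _ _)).prod (g.comp (AddMonoidHom.fst _ _)), ?_⟩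
      simp [hf, hg]
    · have hba : ∀ k : ℕ, ((2 : ℕ) : S 2) ^ k ∣ (b : S 2) → ((2 : ℕ) : S 2) ^ k ∣ (a : S 2) := by
        push Not at hab
        obtain ⟨m, hm1, hm2⟩ := hab
        intro k hk
        have : k ≤ m := by
          by_contra hlt
          push Not at hlt
          exact hm2 ((pow_dvd_pow _ hlt.le).trans hk)
        exact (pow_dvd_pow _ this).trans hm1
      obtain ⟨f, g, hf, hg⟩ := key b a hba c d fun q hq k h1 h2 => hxy' q hq k h2 h1
      refine ⟨(f.comp (AddMonoidHom.snd _ _)).prod (g.comp (AddMonoidHom.snd _ _)), ?_⟩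
      simp [hf, hg]
  refine ⟨RR A, inferInstance, fun n x hn hx => RR_torsionfree A n x hn hx, ?_, hfull, ?_⟩
  · intro x y hxy
    exact hfull x y hxy.le
  · intro h
    obtain ⟨φ, hφ⟩ := h 1 (Xr A hXA) ((chi_eq_iff _ _).2 (by
      intro q hq k
      rw [div_iff A _ q hq, div_iff A _ q hq]
      refine or_congr Iff.rfl ?_
      rw [p_pow_dvd_iff, p_pow_dvd_iff]
      constructor
      · intro h1 i
        have h2 := h1 0
        have h3 : ((1 : RR A) : S 2) = 1 := rfl
        rw [h3, PowerSeries.coeff_one, if_pos rfl] at h2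
        exact h2.trans (one_dvd _)
      · intro h1 i
        have h2 := h1 1
        have h3 : ((Xr A hXA : RR A) : S 2) = PowerSeries.X := rfl
        rw [h3, PowerSeries.coeff_X, if_pos rfl] at h2
        exact h2.trans (one_dvd _)))
    exact not_transitive A hXA hA φ hφ

end Pool.Agent.Results.MP_b84a00_al.SquareKrylovNotTransitive
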